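import Pool.Agent.Helper41.PS.Goals

/-!
Project PS (MP_74f661_nt), packet MA: a lower bound for the number of short patterns of primes in one
residue class, by convexity.
-/

set_option autoImplicit false

open Finset

open scoped Classical

namespace Pool.Agent.Helper78.PS.MA

open Pool.Agent.Helper41.PS

/-- the primes in the class -/
noncomputable def Pr (q a x : ℕ) : Finset ℕ :=
  (Icc 1 x).filter (fun p => p.Prime ∧ p ≡ a [MOD q])

/-- the primes in the class in one cell -/
noncomputable def Ce (q a x L i : ℕ) : Finset ℕ := (Pr q a x).filter (fun p => p / L = i)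

/-- the pairs -/
noncomputable def Pa (m q a x L : ℕ) : Finset (Finset ℕ × ℕ) :=
  (DD m L ×ˢ Icc 1 x).filter (fun z => PD q a z.1 z.2)

theorem MM_eq (m q x L a : ℕ) : MM m q x L a = ((Pa m q a x L).card : ℝ) := by
  unfold MM Pa ff
  rw [← Finset.sum_product', Finset.card_filter, Nat.cast_sum]
  apply Finset.sum_congr rfl
  intro z _
  split_ifs <;> simp

/-- the sets inside the cells -/
noncomputable def Fs (m q a x L K : ℕ) : Finset (Finset ℕ) :=
  (range K).biUnion (fun i => powersetCard (m + 1) (Ce q a x L i))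

theorem card_Fs (m q a x L K : ℕ) :
    (Fs m q a x L K).card = ∑ i ∈ range K, (Ce q a x L i).card.choose (m + 1) := by
  unfold Fs
  rw [Finset.card_biUnion]
  · simp only [card_powersetCard]
  · intro i _ j _ hij
    rw [Function.onFun, Finset.disjoint_left]
    intro F h1 h2
    rw [mem_powersetCard] at h1 h2
    have hne : F.Nonempty := by
      rw [← Finset.card_pos, h1.2]; omega
    obtain ⟨f, hf⟩ := hne
    have e1 := h1.1 hf
    have e2 := h2.1 hf
    unfold Ce at e1 e2
    rw [mem_filter] at e1 e2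
    exact hij (e1.2.symm.trans e2.2)

theorem surj (m q a x L K : ℕ) (hL : 0 < L) :
    (Fs m q a x L K).card ≤ (Pa m q a x L).card := by
  apply card_le_card_of_surjOn (fun z : Finset ℕ × ℕ => insert z.2 (z.1.image (fun d => d + z.2)))
  intro F hF
  rw [Finset.mem_coe] at hF
  unfold Fs at hF
  rw [mem_biUnion] at hF
  obtain ⟨i, -, hF⟩ := hF
  rw [mem_powersetCard] at hF
  obtain ⟨hsub, hcard⟩ := hF
  have hne : F.Nonempty := by
    rw [← Finset.card_pos, hcard]; omega
  have hmem : F.min' hne ∈ F := F.min'_mem hne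
  set n := F.min' hne with hn
  have hge : ∀ f ∈ F, n ≤ f := fun f hf => F.min'_le f hf
  have hC : ∀ f ∈ F, (1 ≤ f ∧ f ≤ x) ∧ (f.Prime ∧ f ≡ a [MOD q]) ∧ f / L = i := by
    intro f hf
    have h1 := hsub hf
    unfold Ce Pr at h1
    rw [mem_filter, mem_filter, mem_Icc] at h1
    exact ⟨h1.1.1, h1.1.2, h1.2⟩
  have himg : ((F.erase n).image (fun f => f - n)).image (fun d => d + n) = F.erase n := by
    rw [image_image]
    have : Set.EqOn ((fun d => d + n) ∘ fun f => f - n) id (F.erase n : Finset ℕ) := by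
      intro f hf
      have hf' : f ∈ F := Finset.mem_of_mem_erase hf
      have := hge f hf'
      simp only [Function.comp_apply, id_eq]
      omega
    rw [image_congr this, image_id]
  refine ⟨((F.erase n).image (fun f => f - n), n), ?_, ?_⟩
  · rw [Finset.mem_coe]
    unfold Pa
    rw [mem_filter, mem_product]
    refine ⟨⟨?_, ?_⟩, ?_⟩
    · unfold DD
      rw [mem_powersetCard]
      refine ⟨?_, ?_⟩
      · intro d hd
        rw [mem_image] at hd
        obtain ⟨f, hf, rfl⟩ := hd
        rw [mem_erase] at hf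
        have h1 := hge f hf.2
        have h2 := (hC f hf.2).2.2
        have h3 := (hC n hmem).2.2
        rw [mem_Icc]
        refine ⟨?_, ?_⟩
        · have := hf.1
          omega
        · by_contra hcon
          push Not at hcon
          have h4 : f / L = n / L := h2.trans h3.symm
          have h5 : n + L ≤ f := by omega
          have h6 : (n + L) / L ≤ f / L := Nat.div_le_div_right h5
          rw [Nat.add_div_right _ hL] at h6
          omega
      · rw [card_image_of_injOn, card_erase_of_mem hmem, hcard]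
        · rfl
        · intro f hf g hg hfg
          have h1 := hge f (Finset.mem_of_mem_erase hf)
          have h2 := hge g (Finset.mem_of_mem_erase hg)
          simp only at hfg
          omega
    · rw [mem_Icc]
      exact (hC n hmem).1
    · intro d hd
      rw [mem_insert, mem_image] at hd
      rcases hd with rfl | ⟨f, hf, rfl⟩
      · simp only [add_zero]
        exact (hC n hmem).2.1
      · have h1 := Finset.mem_of_mem_erase hf
        have h2 := hge f h1
        have h3 : n + (f - n) = f := by omega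
        simp only [h3]
        exact (hC f h1).2.1
  · simp only
    rw [himg, insert_erase hmem]

theorem sum_cells (q a x L : ℕ) :
    ∑ i ∈ range (x / L + 1), (Ce q a x L i).card = (Pr q a x).card := by
  unfold Ce
  rw [← card_eq_sum_card_fiberwise]
  intro p hp
  rw [Finset.mem_coe] at hp
  unfold Pr at hp
  rw [mem_filter, mem_Icc] at hp
  rw [Finset.mem_coe, mem_range]
  exact Nat.lt_succ_of_le (Nat.div_le_div_right hp.1.2)

/-- the convexity inequality -/
theorem conv (m q a x L : ℕ) (hL : 0 < L) (hA : 0 ≤ ((Pr q a x).card : ℝ) - m * ((x / L : ℕ) + 1)) :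
    (((Pr q a x).card : ℝ) - m * ((x / L : ℕ) + 1)) ^ (m + 1) /
      (((x / L : ℕ) : ℝ) + 1) ^ m ≤ (m + 1).factorial * MM m q x L a := by
  have h1 := surj m q a x L (x / L + 1) hL
  rw [card_Fs] at h1
  have h2 : ∀ i, (((Ce q a x L i).card - m : ℕ) : ℝ) ^ (m + 1) ≤
      (m + 1).factorial * (((Ce q a x L i).card.choose (m + 1) : ℕ) : ℝ) := by
    intro i
    have h := Nat.pow_le_choose (α := ℝ) (m + 1) (Ce q a x L i).card
    rw [div_le_iff₀ (by positivity)] at h
    have e : (Ce q a x L i).card + 1 - (m + 1) = (Ce q a x L i).card - m := by omega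
    rw [e] at h
    linarith
  have h3 := pow_sum_div_card_le_sum_pow (s := range (x / L + 1))
    (f := fun i => (((Ce q a x L i).card - m : ℕ) : ℝ)) (fun i _ => Nat.cast_nonneg _) m
  have h4 : ((Pr q a x).card : ℝ) - m * ((x / L : ℕ) + 1) ≤
      ∑ i ∈ range (x / L + 1), (((Ce q a x L i).card - m : ℕ) : ℝ) := by
    have e : ((Pr q a x).card : ℝ) - m * ((x / L : ℕ) + 1) =
        ∑ i ∈ range (x / L + 1), (((Ce q a x L i).card : ℝ) - m) := by
      rw [Finset.sum_sub_distrib, ← sum_cells q a x L, Finset.sum_const, card_range]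
      push_cast
      rw [nsmul_eq_mul]
      push_cast
      ring
    rw [e]
    apply Finset.sum_le_sum
    intro i _
    rcases le_total m (Ce q a x L i).card with h | h
    · rw [Nat.cast_sub h]
    · have h5 : (((Ce q a x L i).card : ℕ) : ℝ) ≤ m := by exact_mod_cast h
      have h6 : (0 : ℝ) ≤ (((Ce q a x L i).card - m : ℕ) : ℝ) := Nat.cast_nonneg _
      linarith
  have h5 : (((Pr q a x).card : ℝ) - m * ((x / L : ℕ) + 1)) ^ (m + 1) ≤
      (∑ i ∈ range (x / L + 1), (((Ce q a x L i).card - m : ℕ) : ℝ)) ^ (m + 1) :=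
    pow_le_pow_left₀ hA h4 _
  rw [MM_eq]
  calc (((Pr q a x).card : ℝ) - m * ((x / L : ℕ) + 1)) ^ (m + 1) /
      (((x / L : ℕ) : ℝ) + 1) ^ m
      ≤ (∑ i ∈ range (x / L + 1), (((Ce q a x L i).card - m : ℕ) : ℝ)) ^ (m + 1) /
        (((x / L : ℕ) : ℝ) + 1) ^ m := by
        apply div_le_div_of_nonneg_right h5; positivity
    _ ≤ ∑ i ∈ range (x / L + 1), (((Ce q a x L i).card - m : ℕ) : ℝ) ^ (m + 1) := by
        rw [card_range] at h3
        push_cast at h3 ⊢
        exact h3
    _ ≤ ∑ i ∈ range (x / L + 1), ((m + 1).factorial : ℝ) *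
          (((Ce q a x L i).card.choose (m + 1) : ℕ) : ℝ) := Finset.sum_le_sum fun i _ => h2 i
    _ = (m + 1).factorial * ((∑ i ∈ range (x / L + 1),
          (Ce q a x L i).card.choose (m + 1) : ℕ) : ℝ) := by
        rw [← Finset.mul_sum, Nat.cast_sum]
    _ ≤ (m + 1).factorial * ((Pa m q a x L).card : ℝ) := by
        apply mul_le_mul_of_nonneg_left _ (by positivity)
        exact_mod_cast h1

theorem t (h : StmtPNT) : StmtMA := by
  intro m q a hq ha
  obtain ⟨c0, hc0, x1, hx1⟩ := h q a hq ha
  refine ⟨(c0 / 2) ^ (m + 1) / (2 ^ m * (m + 1).factorial), max 1 (4 * m / c0), by positivity,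
    le_max_left _ _, max x1 3, ?_⟩
  intro x L hx hK hLx
  have hx3 : 3 ≤ x := le_trans (le_max_right _ _) hx
  have hxx : x1 ≤ x := le_trans (le_max_left _ _) hx
  have hP := hx1 x hxx
  have hxr : (3 : ℝ) ≤ x := by exact_mod_cast hx3
  have hlog : 1 ≤ Real.log x := by
    rw [Real.le_log_iff_exp_le (by linarith)]
    exact (Real.exp_one_lt_d9.le.trans (by norm_num)).trans hxr
  have hlog0 : 0 < Real.log x := by linarith
  have hL1 : (1 : ℝ) ≤ L := by
    have : (1 : ℝ) ≤ max 1 (4 * m / c0) := le_max_left _ _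
    nlinarith
  have hL : 0 < L := by
    have : (0 : ℝ) < L := by linarith
    exact_mod_cast this
  have hLr : (0 : ℝ) < L := by linarith
  have hLxr : (L : ℝ) ≤ x := by exact_mod_cast hLx
  have hcell : (((x / L : ℕ) : ℝ) + 1) ≤ 2 * x / L := by
    have h1 : ((x / L : ℕ) : ℝ) ≤ (x : ℝ) / L := Nat.cast_div_le
    have h2 : (1 : ℝ) ≤ x / L := by rw [le_div_iff₀ hLr]; linarith
    have h3 : 2 * (x : ℝ) / L = x / L + x / L := by ring
    linarith
  have hm : (m : ℝ) * (((x / L : ℕ) : ℝ) + 1) ≤ c0 / 2 * (x / Real.log x) := by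
    have h1 : 4 * m / c0 * Real.log x ≤ L :=
      (mul_le_mul_of_nonneg_right (le_max_right _ _) hlog0.le).trans hK
    have h2 : 4 * (m : ℝ) * Real.log x ≤ c0 * L := by
      have : 4 * (m : ℝ) / c0 * Real.log x = 4 * m * Real.log x / c0 := by ring
      rw [this, div_le_iff₀ hc0] at h1
      linarith
    calc (m : ℝ) * (((x / L : ℕ) : ℝ) + 1) ≤ m * (2 * x / L) :=
          mul_le_mul_of_nonneg_left hcell (Nat.cast_nonneg _)
      _ ≤ c0 / 2 * (x / Real.log x) := by
          rw [show (m : ℝ) * (2 * x / L) = 2 * m * x / L by ring,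
            show c0 / 2 * (x / Real.log x) = c0 * x / (2 * Real.log x) by
              field_simp, div_le_div_iff₀ hLr (by positivity)]
          have hx0 : (0 : ℝ) ≤ x := by linarith
          nlinarith
  have hA : c0 / 2 * (x / Real.log x) ≤
      ((Pr q a x).card : ℝ) - m * ((x / L : ℕ) + 1) := by
    have : c0 * (x / Real.log x) ≤ ((Pr q a x).card : ℝ) := hP
    linarith
  have hx0 : (0 : ℝ) < x := by linarith
  have hA0 : 0 ≤ c0 / 2 * ((x : ℝ) / Real.log x) := by positivity
  have hc := conv m q a x L hL (hA0.trans hA)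
  have h6 : (c0 / 2 * (x / Real.log x)) ^ (m + 1) / (2 * x / L) ^ m ≤
      (m + 1).factorial * MM m q x L a := by
    refine le_trans ?_ hc
    apply div_le_div₀ (pow_nonneg (hA0.trans hA) _) (pow_le_pow_left₀ hA0 hA _) (by positivity)
    exact pow_le_pow_left₀ (by positivity) hcell _
  have h7 : (c0 / 2 * (x / Real.log x)) ^ (m + 1) / (2 * x / L) ^ m =
      (c0 / 2) ^ (m + 1) / 2 ^ m * (x * (L : ℝ) ^ m) / Real.log x ^ (m + 1) := by
    rw [mul_pow (c0 / 2), div_pow (x : ℝ), div_pow (2 * (x : ℝ)), mul_pow 2 (x : ℝ), pow_succ (x : ℝ) m]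
    field_simp
  rw [h7, div_le_iff₀ (by positivity)] at h6
  have h8 : (c0 / 2) ^ (m + 1) / (2 ^ m * (m + 1).factorial) * (x * (L : ℝ) ^ m) =
      ((c0 / 2) ^ (m + 1) / 2 ^ m * (x * (L : ℝ) ^ m)) / (m + 1).factorial := by
    field_simp
  rw [h8, div_le_iff₀ (by positivity)]
  linarith

end Pool.Agent.Helper78.PS.MA
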